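import Pool.Agent.MP_2117ab_co.Grow
import Mathlib.Analysis.SpecificLimits.Normed
import Mathlib.Analysis.SpecialFunctions.Exp
import Mathlib.Analysis.Complex.ExponentialBounds

/-!
Order patterns of placements, chains in them, and a greedy choice of vertices of degree three
which meets a chain of every pattern.
-/

set_option autoImplicit false

open SimpleGraph Finset

namespace Pool.Agent.MP_2117ab_co.Grow

/-- Order patterns on `N` points: six rank functions for each of three colours. -/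
abbrev Pat (N : ℕ) : Type := Fin 3 → Fin 3 × Bool → Fin N → Fin N

variable {N : ℕ}

/-- The preorder of colour `c`. -/
def Le (ω : Pat N) (c : Fin 3) (x y : Fin N) : Prop := ∀ i, ω c i x ≤ ω c i y

/-- Any two points are comparable in some colour. -/
def Tot (ω : Pat N) : Prop := ∀ x y, ∃ c, Le ω c x y ∨ Le ω c y x

open Classical in
/-- The points below `y`. -/
noncomputable def lo (ω : Pat N) (c : Fin 3) (y : Fin N) : Finset (Fin N) :=
  univ.filter fun x => Le ω c x y

open Classical in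
/-- The points above `y`. -/
noncomputable def up (ω : Pat N) (c : Fin 3) (y : Fin N) : Finset (Fin N) :=
  univ.filter fun z => Le ω c y z

theorem sq_bound {α : Type} [DecidableEq α] (K : Finset α) (s : α → Finset α) (t : ℕ)
    (hs : ∀ x ∈ K, (s x).card ≤ t) (h : ∀ x ∈ K, ∀ y ∈ K, y ∈ s x ∨ x ∈ s y) : K.card ≤ 2 * t := by
  have h1 : K ×ˢ K ⊆ (K.biUnion fun x => (s x).image fun y => (x, y)) ∪
      K.biUnion fun y => (s y).image fun x => (x, y) := by
    rintro ⟨x, y⟩ hxy
    obtain ⟨hx, hy⟩ := mem_product.mp hxy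
    rcases h x hx y hy with h2 | h2
    · exact mem_union_left _ (mem_biUnion.mpr ⟨x, hx, mem_image_of_mem _ h2⟩)
    · exact mem_union_right _ (mem_biUnion.mpr ⟨y, hy, mem_image_of_mem (fun x => (x, y)) h2⟩)
  have h2 := (card_le_card h1).trans (card_union_le _ _)
  have h3 := card_biUnion_le_card_mul K (fun x => (s x).image fun y => (x, y)) t
    fun x hx => card_image_le.trans (hs x hx)
  have h4 := card_biUnion_le_card_mul K (fun y => (s y).image fun x => (x, y)) t
    fun x hx => card_image_le.trans (hs x hx)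
  rw [card_product] at h2
  rcases Nat.eq_zero_or_pos K.card with h0 | h0
  · omega
  · refine Nat.le_of_mul_le_mul_left ?_ h0
    calc K.card * K.card ≤ K.card * t + K.card * t := h2.trans (Nat.add_le_add h3 h4)
      _ = K.card * (2 * t) := by ring

open Classical in
/-- In some colour many points have many points below and many points above them. -/
theorem exists_mid {h : ℕ} (hN : N = 256 * h) {ω : Pat N} (hω : Tot ω) :
    ∃ c, 4 * h ≤ (univ.filter fun y => 4 * h ≤ (lo ω c y).card ∧ 4 * h ≤ (up ω c y).card).card := by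
  by_contra hc
  push Not at hc
  let lab : Fin N → Fin 3 → Bool := fun y c => decide ((lo ω c y).card < 4 * h)
  let bad : Finset (Fin N) :=
    univ.filter fun y => ∀ c, ¬ (4 * h ≤ (lo ω c y).card ∧ 4 * h ≤ (up ω c y).card)
  have h1 : ∀ l : Fin 3 → Bool, (bad.filter fun y => lab y = l).card ≤ 2 * (3 * (4 * h)) := by
    intro l
    refine sq_bound _ (fun y => univ.biUnion fun c => if l c then lo ω c y else up ω c y) _
      (fun y hy => ?_) fun x hx y hy => ?_
    · obtain ⟨hy1, hy2⟩ := mem_filter.mp hy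
      refine (card_biUnion_le_card_mul _ _ (4 * h) fun c _ => ?_).trans (by simp)
      have h2 := (mem_filter.mp hy1).2 c
      have h3 : decide ((lo ω c y).card < 4 * h) = l c := congrFun hy2 c
      cases hl : l c
      · rw [hl, decide_eq_false_iff_not] at h3
        simp only [Bool.false_eq_true, if_false]
        omega
      · rw [hl, decide_eq_true_iff] at h3
        simp only [if_true]
        omega
    · obtain ⟨c, hxy⟩ := hω x y
      simp only [mem_biUnion, mem_univ, true_and]
      cases hl : l c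
      · rcases hxy with hxy | hxy
        · exact Or.inl ⟨c, by simp [hl, up, hxy]⟩
        · exact Or.inr ⟨c, by simp [hl, up, hxy]⟩
      · rcases hxy with hxy | hxy
        · exact Or.inr ⟨c, by simp [hl, lo, hxy]⟩
        · exact Or.inl ⟨c, by simp [hl, lo, hxy]⟩
  have h2 : bad.card ≤ 2 * (3 * (4 * h)) * (univ : Finset (Fin 3 → Bool)).card :=
    card_le_mul_card_image_of_maps_to (f := lab) (fun _ _ => mem_univ _) _ fun l _ => h1 l
  have h3 : (univ : Finset (Fin N)) ⊆ bad ∪ univ.biUnion fun c =>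
      univ.filter fun y => 4 * h ≤ (lo ω c y).card ∧ 4 * h ≤ (up ω c y).card := by
    intro y _
    by_cases hy : y ∈ bad
    · exact mem_union_left _ hy
    · simp only [bad, mem_filter, mem_univ, true_and, not_forall, not_not] at hy
      obtain ⟨c, hy⟩ := hy
      exact mem_union_right _ (mem_biUnion.mpr ⟨c, mem_univ _, mem_filter.mpr ⟨mem_univ _, hy⟩⟩)
  have h4 := (card_le_card h3).trans (card_union_le _ _)
  have h5 := card_biUnion_le_card_mul univ (fun c : Fin 3 =>
    univ.filter fun y => 4 * h ≤ (lo ω c y).card ∧ 4 * h ≤ (up ω c y).card) (4 * h)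
    fun c _ => (hc c).le
  have h6 := hc 0
  simp only [card_univ, Fintype.card_fin, Fintype.card_fun, Fintype.card_bool] at h2 h4 h5
  omega

variable {d m : ℕ}

/-- The requests: a colour and three points. -/
abbrev Req (N : ℕ) : Type := Fin 3 × Fin N × Fin N × Fin N

/-- The request is a chain of the pattern. -/
def Chain (ω : Pat N) (q : Req N) : Prop := Le ω q.1 q.2.2.1 q.2.1 ∧ Le ω q.1 q.2.1 q.2.2.2

/-- Join `u` to the three points of the request. -/
def put (e : Fin 3 → Fin d) (T : Fin d → SimpleGraph (Fin N ⊕ Fin m)) (u : Fin m) (q : Req N) :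
    Fin d → SimpleGraph (Fin N ⊕ Fin m) :=
  add (add (add T (e q.1) (.inr u) (.inl q.2.1)) (e (q.1 + 1)) (.inr u) (.inl q.2.2.1))
    (e (q.1 + 2)) (.inr u) (.inl q.2.2.2)

/-- Some vertex is joined to the three points of a chain in the three colours. -/
def Hit (e : Fin 3 → Fin d) (T : Fin d → SimpleGraph (Fin N ⊕ Fin m)) (ω : Pat N) : Prop :=
  ∃ (u : Fin N ⊕ Fin m) (q : Req N), Chain ω q ∧ (T (e q.1)).Adj u (.inl q.2.1) ∧
    (T (e (q.1 + 1))).Adj u (.inl q.2.2.1) ∧ (T (e (q.1 + 2))).Adj u (.inl q.2.2.2)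

theorem Hit.mono {e : Fin 3 → Fin d} {T T' : Fin d → SimpleGraph (Fin N ⊕ Fin m)} (h : T ≤ T')
    {ω : Pat N} (hω : Hit e T ω) : Hit e T' ω := by
  obtain ⟨u, q, h0, h1, h2, h3⟩ := hω
  exact ⟨u, q, h0, h _ h1, h _ h2, h _ h3⟩

theorem le_put (e : Fin 3 → Fin d) (T : Fin d → SimpleGraph (Fin N ⊕ Fin m)) (u : Fin m)
    (q : Req N) : T ≤ put e T u q :=
  (le_add _ _ _ _).trans ((le_add _ _ _ _).trans (le_add _ _ _ _))

theorem hit_put (e : Fin 3 → Fin d) (T : Fin d → SimpleGraph (Fin N ⊕ Fin m)) (u : Fin m)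
    {q : Req N} {ω : Pat N} (h : Chain ω q) : Hit e (put e T u q) ω :=
  ⟨.inr u, q, h, le_add _ _ _ _ _ (le_add _ _ _ _ _ (add_adj _ _ Sum.inr_ne_inl)),
    le_add _ _ _ _ _ (add_adj _ _ Sum.inr_ne_inl), add_adj _ _ Sum.inr_ne_inl⟩

open Classical in
theorem many_left {g D h : ℕ} {T : Fin d → SimpleGraph (Fin N ⊕ Fin m)} (hT : Ok g D T)
    (hR : Room (Fin N ⊕ Fin m) d g D h) {k : Fin d} {u : Fin m}
    (hu : ∀ v, ¬ (T k).Adj (.inr u) v) (A : Finset (Fin N)) (hA : 4 * h ≤ A.card) :
    2 * h ≤ (A.filter fun x => Ok g D (add T k (.inr u) (.inl x))).card := by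
  have h0 : dg (T k) (.inr u) < D := by
    have h1 : (T k).neighborSet (.inr u) = ∅ := Set.eq_empty_of_forall_notMem hu
    rw [dg, h1, Set.ncard_empty]
    have := hR.D2
    omega
  have h1 := hT.many hR h0 (A.map Function.Embedding.inl) (by
    intro b hb hr
    obtain ⟨x, -, rfl⟩ := mem_map.mp hb
    obtain ⟨p⟩ := hr
    cases p with
    | cons h _ => exact hu _ h)
  rw [filter_map, card_map, card_map] at h1
  have h2 : (A.filter ((fun b => Ok g D (add T k (.inr u) b)) ∘ Function.Embedding.inl)) =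
      A.filter fun x => Ok g D (add T k (.inr u) (.inl x)) := by
    congr 1
  rw [h2] at h1
  omega

theorem card_ge {α β : Type} [DecidableEq α] [DecidableEq β] (A : Finset α) (B : α → Finset β)
    (S : Finset (α × β)) (a b : ℕ) (hA : a ≤ A.card) (hB : ∀ x ∈ A, b ≤ (B x).card)
    (hS : ∀ x ∈ A, ∀ y ∈ B x, (x, y) ∈ S) : a * b ≤ S.card := by
  have h1 : A.card * b ≤ S.card := by
    rw [mul_comm]
    refine mul_card_image_le_card_of_maps_to (f := Prod.fst) (s := S.filter fun z => z.1 ∈ A)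
      (fun z hz => (mem_filter.mp hz).2) b (fun x hx => ?_) |>.trans (card_filter_le _ _)
    refine (hB x hx).trans (card_le_card_of_injOn (fun y => (x, y)) (fun y hy => ?_) ?_)
    · exact mem_coe.mpr (mem_filter.mpr ⟨mem_filter.mpr ⟨hS x hx y hy, hx⟩, rfl⟩)
    · intro y _ y' _ hy
      exact (Prod.ext_iff.mp hy).2
  exact (Nat.mul_le_mul_right _ hA).trans h1

theorem three_ne : ∀ c : Fin 3, c + 1 ≠ c ∧ c + 2 ≠ c ∧ c + 2 ≠ c + 1 := by decide

open Classical in
/-- Every total pattern has many chains which can be requested. -/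
theorem many_req {g D h : ℕ} (hN : N = 256 * h) {e : Fin 3 → Fin d} (he : Function.Injective e)
    {T : Fin d → SimpleGraph (Fin N ⊕ Fin m)} (hT : Ok g D T)
    (hR : Room (Fin N ⊕ Fin m) d g D h) {u : Fin m} (hu : ∀ k v, ¬ (T k).Adj (.inr u) v)
    {ω : Pat N} (hω : Tot ω) :
    8 * h ^ 3 ≤ (univ.filter fun q : Req N => Ok g D (put e T u q) ∧ Chain ω q).card := by
  obtain ⟨c, hc⟩ := exists_mid hN hω
  have n1 : e (c + 1) ≠ e c := he.ne (three_ne c).1
  have n2 : e (c + 2) ≠ e c := he.ne (three_ne c).2.1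
  have n3 : e (c + 2) ≠ e (c + 1) := he.ne (three_ne c).2.2
  have h1 : 1 * (2 * h * (2 * h * (2 * h))) ≤
      (univ.filter fun q : Req N => Ok g D (put e T u q) ∧ Chain ω q).card := by
    refine card_ge {c} (fun c => univ.filter fun r => Ok g D (put e T u (c, r)) ∧ Chain ω (c, r))
      _ _ _ (by simp) (fun c' hc' => ?_) fun c' _ r hr => mem_filter.mpr ⟨mem_univ _,
        (mem_filter.mp hr).2⟩
    rw [mem_singleton.mp hc']
    refine card_ge _ (fun y => univ.filter fun r => Ok g D (put e T u (c, y, r)) ∧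
      Chain ω (c, y, r)) _ _ _ (many_left hT hR (hu (e c)) _ hc) (fun y hy => ?_)
      fun y _ r hr => mem_filter.mpr ⟨mem_univ _, (mem_filter.mp hr).2⟩
    obtain ⟨hy1, hy2⟩ := mem_filter.mp hy
    obtain ⟨hlo, hup⟩ := (mem_filter.mp hy1).2
    refine card_ge _ (fun x => (up ω c y).filter fun z => Ok g D (put e T u (c, y, x, z))) _ _ _
      (many_left hy2 hR (k := e (c + 1)) (u := u) (fun v => by rw [add_ne T n1]; exact hu _ v) _ hlo)
      (fun x hx => ?_) fun x hx z hz => ?_
    · exact many_left (mem_filter.mp hx).2 hR (k := e (c + 2)) (u := u)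
        (fun v => by rw [add_ne _ n3, add_ne T n2]; exact hu _ v) _ hup
    · exact mem_filter.mpr ⟨mem_univ _, (mem_filter.mp hz).2,
        (mem_filter.mp (mem_filter.mp hx).1).2, (mem_filter.mp (mem_filter.mp hz).1).2⟩
  calc 8 * h ^ 3 = 1 * (2 * h * (2 * h * (2 * h))) := by ring
    _ ≤ _ := h1

/-- The inverse of the fraction of patterns met in one step. -/
def M : ℕ := 6291456

open Classical in
theorem step {g D h : ℕ} (hN : N = 256 * h) (h0 : 0 < h) {e : Fin 3 → Fin d}
    (he : Function.Injective e) {T : Fin d → SimpleGraph (Fin N ⊕ Fin m)} (hT : Ok g D T)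
    (hR : Room (Fin N ⊕ Fin m) d g D h) {u : Fin m} (hu : ∀ k v, ¬ (T k).Adj (.inr u) v)
    (S : Finset (Pat N)) (hS : ∀ ω ∈ S, Tot ω) (hne : S.Nonempty) :
    ∃ q, Ok g D (put e T u q) ∧ S.card ≤ M * (S.filter fun ω => Chain ω q).card := by
  by_contra hc
  push Not at hc
  let A : Finset (Req N) := univ.filter fun q => Ok g D (put e T u q)
  have h1 : ∑ ω ∈ S, (A.filter fun q => Chain ω q).card =
      ∑ q ∈ A, (S.filter fun ω => Chain ω q).card := by
    simp only [card_filter]
    exact sum_comm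
  have h2 : S.card * (8 * h ^ 3) ≤ ∑ ω ∈ S, (A.filter fun q => Chain ω q).card := by
    refine card_nsmul_le_sum S _ _ fun ω hω => ?_
    rw [filter_filter]
    exact many_req hN he hT hR hu (hS ω hω)
  have h3 : ∑ q ∈ A, (M * (S.filter fun ω => Chain ω q).card + 1) ≤ A.card * S.card :=
    sum_le_card_nsmul A _ _ fun q hq => hc q (mem_filter.mp hq).2
  have h4 : A.card ≤ M * (8 * h ^ 3) := by
    refine (card_le_univ A).trans (le_of_eq ?_)
    simp only [Fintype.card_prod, Fintype.card_fin, hN, M]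
    ring
  have h5 : 0 < A.card := by
    obtain ⟨ω, hω⟩ := hne
    have h6 := many_req hN he hT hR hu (hS ω hω)
    have h7 : 0 < 8 * h ^ 3 := by positivity
    obtain ⟨q, hq⟩ := card_pos.mp (h7.trans_le h6)
    exact card_pos.mpr ⟨q, mem_filter.mpr ⟨mem_univ _, (mem_filter.mp hq).2.1⟩⟩
  rw [sum_add_distrib, ← mul_sum, ← h1, sum_const, smul_eq_mul, mul_one] at h3
  have h8 : M * (S.card * (8 * h ^ 3)) ≤ M * ∑ ω ∈ S, (A.filter fun q => Chain ω q).card :=
    Nat.mul_le_mul_left _ h2
  have h9 : A.card * S.card ≤ M * (8 * h ^ 3) * S.card := Nat.mul_le_mul_right _ h4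
  have h10 : M * (S.card * (8 * h ^ 3)) = M * (8 * h ^ 3) * S.card := by ring
  omega

open Classical in
theorem steps {g D h : ℕ} (hN : N = 256 * h) (h0 : 0 < h) {e : Fin 3 → Fin d}
    (he : Function.Injective e) (hR : Room (Fin N ⊕ Fin m) d g D h) (t : ℕ) (ht : t ≤ m) :
    ∃ T : Fin d → SimpleGraph (Fin N ⊕ Fin m), Ok g D T ∧
      (∀ u : Fin m, t ≤ u.val → ∀ k v, ¬ (T k).Adj (.inr u) v) ∧
      ((univ.filter fun ω : Pat N => Tot ω ∧ ¬ Hit e T ω).card : ℝ) ≤
        Fintype.card (Pat N) * (1 - 1 / M) ^ t := by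
  induction t with
  | zero =>
    refine ⟨fun _ => ⊥, ⟨fun _ => isAcyclic_bot, fun _ _ _ => disjoint_bot_left, ?_, ?_⟩,
      fun _ _ _ _ h => h, ?_⟩
    · intro a w hw
      refine absurd hw ?_
      refine IsAcyclic.anti (G' := ⊥) (iSup_le fun _ => le_rfl) isAcyclic_bot w
    · intro i v
      simp [dg]
    · rw [pow_zero, mul_one]
      exact_mod_cast card_le_univ _
  | succ t ih =>
    obtain ⟨T, hT, hiso, hcard⟩ := ih (by omega)
    have hM : (0 : ℝ) < M := by norm_num [M]
    have hM1 : (0 : ℝ) ≤ 1 - 1 / M := by norm_num [M]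
    rcases (univ.filter fun ω : Pat N => Tot ω ∧ ¬ Hit e T ω).eq_empty_or_nonempty with hS | hS
    · refine ⟨T, hT, fun u hu => hiso u (by omega), ?_⟩
      rw [hS, card_empty, Nat.cast_zero]
      positivity
    · obtain ⟨q, hq, hq2⟩ := step hN h0 he hT hR (hiso ⟨t, by omega⟩ le_rfl) _
        (fun ω hω => (mem_filter.mp hω).2.1) hS
      refine ⟨put e T ⟨t, by omega⟩ q, hq, fun u hu k v hv => ?_, ?_⟩
      · have h1 : (Sum.inr u : Fin N ⊕ Fin m) ≠ .inr ⟨t, by omega⟩ := fun h => by
          have := congrArg Fin.val (Sum.inr_injective h)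
          simp only at this
          omega
        exact hiso u (by omega) k v (add_iso h1 Sum.inr_ne_inl (add_iso h1 Sum.inr_ne_inl
          (add_iso h1 Sum.inr_ne_inl hv)))
      · have h1 : (univ.filter fun ω : Pat N => Tot ω ∧ ¬ Hit e (put e T ⟨t, by omega⟩ q) ω) ⊆
            (univ.filter fun ω : Pat N => Tot ω ∧ ¬ Hit e T ω).filter fun ω => ¬ Chain ω q := by
          intro ω hω
          obtain ⟨h2, h3⟩ := (mem_filter.mp hω).2
          exact mem_filter.mpr ⟨mem_filter.mpr ⟨mem_univ _, h2,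
            fun h4 => h3 (h4.mono (le_put _ _ _ _))⟩, fun h4 => h3 (hit_put _ _ _ h4)⟩
        have h2 := card_filter_add_card_filter_not
          (s := univ.filter fun ω : Pat N => Tot ω ∧ ¬ Hit e T ω) fun ω => Chain ω q
        have h3 := card_le_card h1
        generalize (univ.filter fun ω : Pat N =>
          Tot ω ∧ ¬ Hit e (put e T ⟨t, by omega⟩ q) ω).card = n' at h3 ⊢
        generalize ((univ.filter fun ω : Pat N => Tot ω ∧ ¬ Hit e T ω).filter
          fun ω => Chain ω q).card = a at h2 hq2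
        generalize ((univ.filter fun ω : Pat N => Tot ω ∧ ¬ Hit e T ω).filter
          fun ω => ¬ Chain ω q).card = b at h2 h3
        generalize (univ.filter fun ω : Pat N => Tot ω ∧ ¬ Hit e T ω).card = n at h2 hq2 hcard
        have h4 : (n : ℝ) ≤ M * a := by exact_mod_cast hq2
        have h5 : (n' : ℝ) + a ≤ n := by exact_mod_cast (by omega : n' + a ≤ n)
        have h6 : (n : ℝ) * (1 / M) ≤ a := by
          rw [mul_one_div, div_le_iff₀ hM]
          linarith
        calc (n' : ℝ) ≤ n * (1 - 1 / M) := by linarith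
          _ ≤ Fintype.card (Pat N) * (1 - 1 / M) ^ t * (1 - 1 / M) :=
              mul_le_mul_of_nonneg_right hcard hM1
          _ = _ := by ring

theorem small (L : ℕ) (hL : 0 < L) : (2 : ℝ) ^ L * (1 - 1 / M) ^ (M * L) < 1 := by
  have hM : (0 : ℝ) < M := by norm_num [M]
  have hM1 : (0 : ℝ) ≤ 1 - 1 / M := by norm_num [M]
  have h1 : (1 - 1 / M : ℝ) ^ M ≤ Real.exp (-1) := by
    have h2 : (1 - 1 / M : ℝ) ≤ Real.exp (-(1 / M)) := by
      have := Real.add_one_le_exp (-(1 / (M : ℝ)))
      linarith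
    refine (pow_le_pow_left₀ hM1 h2 M).trans (le_of_eq ?_)
    rw [← Real.exp_nat_mul]
    congr 1
    field_simp
  have h2 : 2 * Real.exp (-1) < 1 := by
    have := Real.exp_neg_one_lt_d9
    linarith
  rw [pow_mul, ← mul_pow]
  exact pow_lt_one₀ (by positivity) (by linarith) hL.ne'

theorem exists_exp (C g : ℕ) : ∃ a : ℕ, (C * (a + 1)) ^ g ≤ 2 ^ a := by
  have h1 := tendsto_pow_const_div_const_pow_of_one_lt g (show (1 : ℝ) < 2 by norm_num)
  have h2 : (0 : ℝ) < 1 / (2 * (C + 1) ^ g) := by positivity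
  obtain ⟨n, hn⟩ := Filter.eventually_atTop.mp (h1.eventually (gt_mem_nhds h2))
  refine ⟨n, ?_⟩
  have h3 := hn (n + 1) (by omega)
  rw [div_lt_div_iff₀ (by positivity) (by positivity)] at h3
  have h4 : ((C : ℝ) * (n + 1)) ^ g ≤ ((C + 1) * (n + 1)) ^ g := by gcongr; linarith
  have h5 : ((C : ℝ) * (n + 1)) ^ g ≤ 2 ^ n := by
    rw [mul_pow (C + 1 : ℝ)] at h4
    push_cast at h3
    rw [pow_succ (2 : ℝ)] at h3
    linarith
  exact_mod_cast h5

/-- Spanning trees with no short cycle in their union which meet every total pattern. -/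
theorem exists_trees (g : ℕ) {e : Fin 3 → Fin d} (he : Function.Injective e) :
    ∃ (N m D : ℕ) (T : Fin d → SimpleGraph (Fin N ⊕ Fin m)), Ok (g + 1) D T ∧
      (∀ i, (T i).IsTree) ∧ ∀ ω : Pat N, Tot ω → Hit e T ω := by
  classical
  obtain ⟨a, ha⟩ := exists_exp (d * (512 * (1 + 144 * M)) + 1) (g + 1)
  have h0 : 0 < 2 ^ a := by positivity
  have hR : Room (Fin (256 * 2 ^ a) ⊕ Fin (M * (18 * (256 * 2 ^ a) * (a + 8)))) d (g + 1)
      (512 * (1 + 18 * M * (a + 8))) (2 ^ a) := by
    refine ⟨by omega, by omega, le_trans (Nat.pow_le_pow_left ?_ _) ha, le_of_eq ?_⟩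
    · have h1 : 1 + 18 * M * (a + 8) ≤ (1 + 144 * M) * (a + 1) := by
        have h2 : 18 * M * (a + 8) ≤ 18 * M * (8 * (a + 1)) := Nat.mul_le_mul_left _ (by omega)
        nlinarith
      have h3 := Nat.mul_le_mul_left d (Nat.mul_le_mul_left 512 h1)
      nlinarith
    · rw [Fintype.card_sum, Fintype.card_fin, Fintype.card_fin]
      ring
  obtain ⟨T, hT, -, hcard⟩ := steps rfl h0 he hR _ le_rfl
  obtain ⟨T', hle, hT', htree⟩ := hT.complete hR (by
    rw [Fintype.card_sum, Fintype.card_fin]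
    omega)
  refine ⟨_, _, _, T', hT', htree, fun ω hω => Hit.mono hle ?_⟩
  by_contra hn
  have h1 : (Fintype.card (Pat (256 * 2 ^ a)) : ℝ) = 2 ^ (18 * (256 * 2 ^ a) * (a + 8)) := by
    have h2 : Fintype.card (Pat (256 * 2 ^ a)) = 2 ^ (18 * (256 * 2 ^ a) * (a + 8)) := by
      simp only [Fintype.card_fun, Fintype.card_prod, Fintype.card_fin, Fintype.card_bool]
      generalize hn : 256 * 2 ^ a = n
      have h3 : n = 2 ^ (a + 8) := by rw [← hn]; ring
      rw [← pow_mul, ← pow_mul]
      conv_lhs => rw [h3, ← pow_mul, ← h3]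
      congr 1
      ring
    rw [h2]
    push_cast
    rfl
  rw [h1] at hcard
  have h2 := hcard.trans_lt (small _ (by positivity))
  have h3 : 0 < (univ.filter fun ω : Pat (256 * 2 ^ a) => Tot ω ∧ ¬ Hit e T ω).card :=
    card_pos.mpr ⟨ω, mem_filter.mpr ⟨mem_univ _, hω, hn⟩⟩
  have h4 : (1 : ℝ) ≤ (univ.filter fun ω : Pat (256 * 2 ^ a) => Tot ω ∧ ¬ Hit e T ω).card := by
    exact_mod_cast h3
  linarith

open Classical in
/-- The rank of a point for a real function. -/
noncomputable def rank (f : Fin N → ℝ) (x : Fin N) : Fin N :=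
  ⟨(univ.filter fun y => f y < f x).card, by
    have h : (univ.filter fun y => f y < f x) ⊂ univ :=
      filter_ssubset.mpr ⟨x, mem_univ _, lt_irrefl _⟩
    simpa using card_lt_card h⟩

theorem rank_le (f : Fin N → ℝ) (x y : Fin N) : rank f x ≤ rank f y ↔ f x ≤ f y := by
  classical
  constructor
  · intro h
    by_contra hc
    have hc := not_le.mp hc
    have h1 : (univ.filter fun z => f z < f y) ⊂ univ.filter fun z => f z < f x := by
      refine ⟨fun z hz => mem_filter.mpr ⟨mem_univ _, (mem_filter.mp hz).2.trans hc⟩, fun h2 => ?_⟩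
      exact lt_irrefl _ (mem_filter.mp (h2 (mem_filter.mpr ⟨mem_univ y, hc⟩))).2
    exact absurd h (not_le.mpr (card_lt_card h1))
  · intro h
    have h1 : (univ.filter fun z => f z < f x) ⊆ univ.filter fun z => f z < f y :=
      fun z hz => mem_filter.mpr ⟨mem_univ _, (mem_filter.mp hz).2.trans_le h⟩
    exact card_le_card h1

/-- The pattern of a placement in three coordinates. -/
noncomputable def pat (p : Fin N → Fin 3 → ℝ) : Pat N :=
  fun c i => rank fun x => if i.2 then p x c + p x i.1 else p x c - p x i.1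

theorem le_pat (p : Fin N → Fin 3 → ℝ) (c : Fin 3) (x y : Fin N) :
    Le (pat p) c x y ↔ ∀ j, |p y j - p x j| ≤ p y c - p x c := by
  simp only [Le, pat, rank_le, Prod.forall, Bool.forall_bool, Bool.false_eq_true, if_false, if_true,
    abs_le]
  refine forall_congr' fun j => ⟨fun h => ⟨?_, ?_⟩, fun h => ⟨?_, ?_⟩⟩ <;> linarith [h.1, h.2]

theorem tot_pat (p : Fin N → Fin 3 → ℝ) : Tot (pat p) := by
  intro x y
  obtain ⟨c, hc⟩ := Finite.exists_max fun j => |p y j - p x j|
  refine ⟨c, ?_⟩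
  rw [le_pat, le_pat]
  rcases le_total 0 (p y c - p x c) with h | h
  · exact Or.inl fun j => (hc j).trans (abs_of_nonneg h).le
  · refine Or.inr fun j => ?_
    rw [abs_sub_comm]
    refine (hc j).trans ?_
    rw [abs_of_nonpos h, neg_sub]

end Pool.Agent.MP_2117ab_co.Grow
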