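import Mathlib.Combinatorics.SimpleGraph.Acyclic
import Mathlib.Combinatorics.SimpleGraph.Girth
import Mathlib.Combinatorics.SimpleGraph.DegreeSum
import Mathlib.Data.Set.Card
import Mathlib.Order.Preorder.Finite

/-!
Families of edge-disjoint forests with no short cycle in their union, grown one edge at a time.
-/

set_option autoImplicit false

open SimpleGraph Finset

namespace Pool.Agent.MP_2117ab_co.Grow

variable {V : Type}

/-- There is a walk of length at most `r` from `b` to `a`. -/
def Near (G : SimpleGraph V) (r : ℕ) (b a : V) : Prop := ∃ w : G.Walk b a, w.length ≤ r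

/-- Every cycle is longer than `g`. -/
def Big (G : SimpleGraph V) (g : ℕ) : Prop := ∀ a (w : G.Walk a a), w.IsCycle → g < w.length

/-- The degree. -/
noncomputable def dg (G : SimpleGraph V) (v : V) : ℕ := (G.neighborSet v).ncard

theorem edges_mem {G : SimpleGraph V} {a b u v : V} (w : (G ⊔ edge a b).Walk u v)
    (h : s(a, b) ∉ w.edges) : ∀ e ∈ w.edges, e ∈ G.edgeSet := by
  intro e he
  have h1 := w.edges_subset_edgeSet he
  rw [edgeSet_sup] at h1
  rcases h1 with h1 | h1
  · exact h1
  · exfalso
    have h2 : e = s(a, b) := by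
      rw [edge, edgeSet_fromEdgeSet] at h1
      exact h1.1
    exact h (h2 ▸ he)

theorem trail_split {G : SimpleGraph V} {a b u v : V} (w : (G ⊔ edge a b).Walk u v)
    (hw : w.IsTrail) (h : s(a, b) ∈ w.edges) :
    (∃ (p : G.Walk u a) (q : G.Walk b v), p.length + q.length < w.length) ∨
      ∃ (p : G.Walk u b) (q : G.Walk a v), p.length + q.length < w.length := by
  induction w with
  | nil => simp at h
  | @cons x y z hxy w ih =>
    rw [Walk.isTrail_cons] at hw
    by_cases he : s(x, y) = s(a, b)
    · have h1 : s(a, b) ∉ w.edges := he ▸ hw.2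
      have h2 := edges_mem w h1
      rcases Sym2.eq_iff.mp he with ⟨rfl, rfl⟩ | ⟨rfl, rfl⟩
      · exact Or.inl ⟨Walk.nil, w.transfer G h2, by simp⟩
      · exact Or.inr ⟨Walk.nil, w.transfer G h2, by simp⟩
    · have h1 : s(a, b) ∈ w.edges := by
        rw [Walk.edges_cons, List.mem_cons] at h
        exact h.resolve_left fun h' => he h'.symm
      have h2 : G.Adj x y := by
        rcases hxy with h2 | h2
        · exact h2
        · exfalso
          rw [edge, fromEdgeSet_adj] at h2
          exact he h2.1
      rcases ih hw.1 h1 with ⟨p, q, hpq⟩ | ⟨p, q, hpq⟩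
      · exact Or.inl ⟨Walk.cons h2 p, q, by simp only [Walk.length_cons]; omega⟩
      · exact Or.inr ⟨Walk.cons h2 p, q, by simp only [Walk.length_cons]; omega⟩

theorem Big.sup {G : SimpleGraph V} {g : ℕ} {a b : V} (hG : Big G g) (h : ¬ Near G g b a) :
    Big (G ⊔ edge a b) g := by
  intro v w hw
  by_cases he : s(a, b) ∈ w.edges
  · by_contra hl
    rcases trail_split w hw.isTrail he with ⟨p, q, hpq⟩ | ⟨p, q, hpq⟩
    · exact h ⟨q.append p, by rw [Walk.length_append]; omega⟩
    · exact h ⟨(q.append p).reverse, by rw [Walk.length_reverse, Walk.length_append]; omega⟩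
  · have := hG v (w.transfer G (edges_mem w he)) (hw.transfer _)
    rwa [Walk.length_transfer] at this

open Classical in
theorem ball_card [Fintype V] {G : SimpleGraph V} {D : ℕ} (hD : ∀ v, dg G v ≤ D) (a : V) (r : ℕ) :
    (univ.filter fun b => Near G r b a).card ≤ (D + 1) ^ r := by
  induction r with
  | zero =>
    rw [pow_zero, card_le_one]
    intro x hx y hy
    obtain ⟨p, hp⟩ := (mem_filter.mp hx).2
    obtain ⟨q, hq⟩ := (mem_filter.mp hy).2
    rw [Walk.eq_of_length_eq_zero (Nat.le_zero.mp hp), Walk.eq_of_length_eq_zero (Nat.le_zero.mp hq)]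
  | succ r ih =>
    have h1 : (univ.filter fun b => Near G (r + 1) b a) ⊆
        (univ.filter fun b => Near G r b a).biUnion fun c => insert c (G.neighborSet c).toFinset := by
      intro b hb
      obtain ⟨p, hp⟩ := (mem_filter.mp hb).2
      rw [mem_biUnion]
      cases p with
      | nil => exact ⟨a, mem_filter.mpr ⟨mem_univ _, Walk.nil, Nat.zero_le _⟩, mem_insert_self _ _⟩
      | @cons _ c _ h p =>
        refine ⟨c, mem_filter.mpr ⟨mem_univ _, p, ?_⟩, mem_insert_of_mem ?_⟩
        · rw [Walk.length_cons] at hp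
          omega
        · exact Set.mem_toFinset.mpr h.symm
    refine (card_le_card h1).trans ((card_biUnion_le_card_mul _ _ (D + 1) fun c _ => ?_).trans ?_)
    · refine (card_insert_le _ _).trans ?_
      have := hD c
      rw [dg, Set.ncard_eq_toFinset_card'] at this
      omega
    · rw [pow_succ]
      exact Nat.mul_le_mul_right _ ih

open Classical in
theorem high_card [Fintype V] {G : SimpleGraph V} (hG : G.IsAcyclic) (D : ℕ) :
    (univ.filter fun v => D ≤ dg G v).card * D ≤ 2 * Fintype.card V := by
  rcases isEmpty_or_nonempty V with hV | hV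
  · simp
  obtain ⟨F, hGF, -, hF⟩ := (connected_top (V := V)).exists_isTree_le_of_le_of_isAcyclic le_top hG
  have h1 := hF.card_edgeFinset
  have h2 : G.edgeFinset.card ≤ F.edgeFinset.card := card_le_card (edgeFinset_mono hGF)
  have h3 := G.sum_degrees_eq_twice_card_edges
  have h4 : ∀ v, dg G v = G.degree v := fun v => by
    rw [dg, Set.ncard_eq_toFinset_card']
    rfl
  calc (univ.filter fun v => D ≤ dg G v).card * D
      = ∑ v ∈ univ.filter fun v => D ≤ dg G v, D := by rw [sum_const, smul_eq_mul]
    _ ≤ ∑ v ∈ univ.filter fun v => D ≤ dg G v, G.degree v :=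
        sum_le_sum fun v hv => h4 v ▸ (mem_filter.mp hv).2
    _ ≤ ∑ v, G.degree v := sum_le_sum_of_subset (filter_subset _ _)
    _ ≤ 2 * Fintype.card V := by omega

theorem leaf [Finite V] {G : SimpleGraph V} (hG : G.IsAcyclic) (v : V) :
    ∃ a, G.Reachable v a ∧ dg G a ≤ 1 := by
  classical
  have := Fintype.ofFinite V
  have hb : ∀ n, (∃ (a : V) (p : G.Walk a v), p.IsPath ∧ p.length = n) → n ≤ Fintype.card V := by
    rintro n ⟨a, p, hp, rfl⟩
    exact hp.length_lt.le
  have h0 : ∃ (a : V) (p : G.Walk a v), p.IsPath ∧ p.length = 0 := ⟨v, Walk.nil, by simp, rfl⟩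
  obtain ⟨a, p, hp, hl⟩ := Nat.findGreatest_spec
    (P := fun n => ∃ (a : V) (p : G.Walk a v), p.IsPath ∧ p.length = n)
    (Nat.zero_le (Fintype.card V)) h0
  refine ⟨a, ⟨p.reverse⟩, ?_⟩
  have h1 : ∀ w, G.Adj a w → w = p.snd := by
    intro w hw
    refine hG.eq_snd_of_adj_start hp hw ?_
    by_contra hs
    have h2 : (Walk.cons hw.symm p).IsPath := hp.cons hs
    have h3 : ∃ (a : V) (q : G.Walk a v), q.IsPath ∧ q.length = p.length + 1 :=
      ⟨w, _, h2, by rw [Walk.length_cons]⟩
    have h4 := Nat.le_findGreatest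
      (P := fun n => ∃ (a : V) (p : G.Walk a v), p.IsPath ∧ p.length = n) (hb _ h3) h3
    omega
  rw [dg, Set.ncard_le_one (Set.toFinite _)]
  intro x hx y hy
  rw [h1 x hx, h1 y hy]

variable {d : ℕ}

/-- Edge-disjoint forests of bounded degree whose union has no short cycle. -/
structure Ok (g D : ℕ) (T : Fin d → SimpleGraph V) : Prop where
  acyc : ∀ i, (T i).IsAcyclic
  disj : ∀ i j, i ≠ j → Disjoint (T i) (T j)
  big : Big (⨆ i, T i) g
  deg : ∀ i v, dg (T i) v ≤ D

/-- Add the edge `a b` to the forest number `k`. -/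
def add (T : Fin d → SimpleGraph V) (k : Fin d) (a b : V) : Fin d → SimpleGraph V :=
  Function.update T k (T k ⊔ edge a b)

theorem add_self (T : Fin d → SimpleGraph V) (k : Fin d) (a b : V) :
    add T k a b k = T k ⊔ edge a b := Function.update_self _ _ _

theorem add_ne (T : Fin d → SimpleGraph V) {k i : Fin d} (h : i ≠ k) (a b : V) :
    add T k a b i = T i := Function.update_of_ne h _ _

theorem le_add (T : Fin d → SimpleGraph V) (k : Fin d) (a b : V) : T ≤ add T k a b := by
  intro i
  by_cases h : i = k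
  · subst h
    rw [add_self]
    exact le_sup_left
  · rw [add_ne T h]

theorem add_adj (T : Fin d → SimpleGraph V) (k : Fin d) {a b : V} (h : a ≠ b) :
    (add T k a b k).Adj a b := by
  rw [add_self]
  exact Or.inr ((edge_adj a b a b).mpr ⟨Or.inl ⟨rfl, rfl⟩, h⟩)

theorem add_iso {T : Fin d → SimpleGraph V} {k i : Fin d} {a b u v : V} (ha : u ≠ a) (hb : u ≠ b)
    (h : (add T k a b i).Adj u v) : (T i).Adj u v := by
  by_cases hi : i = k
  · subst hi
    rw [add_self] at h
    rcases h with h | h
    · exact h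
    · rcases ((edge_adj a b u v).mp h).1 with h | h
      · exact absurd h.1 ha
      · exact absurd h.1 hb
  · rwa [add_ne T hi] at h

theorem iSup_add (T : Fin d → SimpleGraph V) (k : Fin d) (a b : V) :
    ⨆ i, add T k a b i = (⨆ i, T i) ⊔ edge a b := by
  apply le_antisymm
  · refine iSup_le fun i => ?_
    by_cases h : i = k
    · subst h
      rw [add_self]
      exact sup_le_sup_right (le_iSup T i) _
    · rw [add_ne T h]
      exact (le_iSup T i).trans le_sup_left
  · refine sup_le (iSup_mono (le_add T k a b)) ?_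
    refine le_trans ?_ (le_iSup (add T k a b) k)
    rw [add_self]
    exact le_sup_right

theorem dg_sup [Finite V] (G : SimpleGraph V) (a b v : V) {D : ℕ} (ha : dg G a < D)
    (hb : dg G b < D) (hv : dg G v ≤ D) : dg (G ⊔ edge a b) v ≤ D := by
  have key : ∀ x, (G ⊔ edge a b).neighborSet v ⊆ insert x (G.neighborSet v) → dg G v < D →
      dg (G ⊔ edge a b) v ≤ D := fun x hx h =>
    (Set.ncard_le_ncard hx (Set.toFinite _)).trans ((Set.ncard_insert_le _ _).trans h)
  by_cases h1 : v = a
  · subst h1
    refine key b (fun x hx => ?_) ha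
    rcases hx with hx | hx
    · exact Or.inr hx
    · obtain ⟨h2 | h2, h3⟩ := (edge_adj v b v x).mp hx
      · exact Or.inl h2.2
      · exact absurd h2.2.symm h3
  by_cases h2 : v = b
  · subst h2
    refine key a (fun x hx => ?_) hb
    rcases hx with hx | hx
    · exact Or.inr hx
    · obtain ⟨h2 | h2, h3⟩ := (edge_adj a v v x).mp hx
      · exact absurd h2.1 h1
      · exact Or.inl h2.2
  · refine le_trans (Set.ncard_le_ncard (fun x hx => ?_) (Set.toFinite _)) hv
    rcases hx with hx | hx
    · exact hx
    · obtain ⟨h3 | h3, -⟩ := (edge_adj a b v x).mp hx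
      · exact absurd h3.1 h1
      · exact absurd h3.1 h2

theorem Ok.add [Finite V] {g D : ℕ} {T : Fin d → SimpleGraph V} (h : Ok g D T) (hg : 1 ≤ g)
    {k : Fin d} {a b : V} (hn : ¬ Near (⨆ i, T i) g b a) (hr : ¬ (T k).Reachable a b)
    (ha : dg (T k) a < D) (hb : dg (T k) b < D) : Ok g D (add T k a b) := by
  have hd : ∀ j, Disjoint (edge a b) (T j) := by
    intro j
    rw [SimpleGraph.disjoint_left]
    intro x y hxy hT
    have h1 : (⨆ i, T i).Adj x y := le_iSup T j hT
    rcases ((edge_adj a b x y).mp hxy).1 with ⟨rfl, rfl⟩ | ⟨rfl, rfl⟩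
    · exact hn ⟨Walk.cons h1.symm Walk.nil, hg⟩
    · exact hn ⟨Walk.cons h1 Walk.nil, hg⟩
  refine ⟨fun i => ?_, fun i j hij => ?_, ?_, fun i v => ?_⟩
  · by_cases hi : i = k
    · subst hi
      rw [add_self]
      exact (h.acyc i).sup_edge_of_not_reachable hr
    · rw [add_ne T hi]
      exact h.acyc i
  · by_cases hi : i = k
    · subst hi
      rw [add_self, add_ne T hij.symm]
      exact disjoint_sup_left.mpr ⟨h.disj i j hij, hd j⟩
    · by_cases hj : j = k
      · subst hj
        rw [add_self, add_ne T hij]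
        exact disjoint_sup_right.mpr ⟨h.disj i j hij, (hd i).symm⟩
      · rw [add_ne T hi, add_ne T hj]
        exact h.disj i j hij
  · rw [iSup_add]
    exact h.big.sup hn
  · by_cases hi : i = k
    · subst hi
      rw [add_self]
      exact dg_sup _ _ _ _ ha hb (h.deg i v)
    · rw [add_ne T hi]
      exact h.deg i v

theorem Ok.dg_iSup [Finite V] {g D : ℕ} {T : Fin d → SimpleGraph V} (h : Ok g D T) (v : V) :
    dg (⨆ i, T i) v ≤ d * D := by
  classical
  have := Fintype.ofFinite V
  have h1 : ((⨆ i, T i).neighborSet v).toFinset ⊆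
      univ.biUnion fun i => ((T i).neighborSet v).toFinset := by
    intro x hx
    rw [Set.mem_toFinset, mem_neighborSet] at hx
    obtain ⟨i, hi⟩ := iSup_adj.mp hx
    refine mem_biUnion.mpr ⟨i, mem_univ _, ?_⟩
    rwa [Set.mem_toFinset, mem_neighborSet]
  rw [dg, Set.ncard_eq_toFinset_card']
  refine (card_le_card h1).trans ((card_biUnion_le_card_mul _ _ D fun i _ => ?_).trans ?_)
  · have := h.deg i v
    rwa [dg, Set.ncard_eq_toFinset_card'] at this
  · rw [card_univ, Fintype.card_fin]

/-- The sizes: balls and the sets of saturated vertices have at most `h` elements. -/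
structure Room (V : Type) [Fintype V] (d g D h : ℕ) : Prop where
  g1 : 1 ≤ g
  D2 : 2 ≤ D
  ball : (d * D + 1) ^ g ≤ h
  high : 2 * Fintype.card V ≤ h * D

open Classical in
/-- All but `2 h` vertices outside the component of `a` can be joined to `a`. -/
theorem Ok.many [Fintype V] {g D h : ℕ} {T : Fin d → SimpleGraph V} (hT : Ok g D T)
    (hR : Room V d g D h) {k : Fin d} {a : V} (ha : dg (T k) a < D) (A : Finset V)
    (hA : ∀ b ∈ A, ¬ (T k).Reachable a b) :
    A.card ≤ (A.filter fun b => Ok g D (Grow.add T k a b)).card + 2 * h := by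
  have h1 := (ball_card hT.dg_iSup a g).trans hR.ball
  have h2 : (univ.filter fun v => D ≤ dg (T k) v).card ≤ h :=
    Nat.le_of_mul_le_mul_right ((high_card (hT.acyc k) D).trans hR.high) (by have := hR.D2; omega)
  have h3 : A ⊆ (A.filter fun b => Ok g D (Grow.add T k a b)) ∪
      ((univ.filter fun b => Near (⨆ i, T i) g b a) ∪ univ.filter fun v => D ≤ dg (T k) v) := by
    intro b hb
    simp only [mem_union, mem_filter, mem_univ, true_and]
    by_contra hc
    push Not at hc
    exact hc.1 hb (hT.add hR.g1 hc.2.1 (hA b hb) ha hc.2.2)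
  have h4 := (card_le_card h3).trans ((card_union_le _ _).trans
    (Nat.add_le_add_left (card_union_le _ _) _))
  omega

/-- The forests extend to spanning trees. -/
theorem Ok.complete [Fintype V] {g D h : ℕ} {T : Fin d → SimpleGraph V} (hT : Ok g D T)
    (hR : Room V d g D h) (hV : 4 * h < Fintype.card V) :
    ∃ T', T ≤ T' ∧ Ok g D T' ∧ ∀ i, (T' i).IsTree := by
  classical
  obtain ⟨T', hle, hmax⟩ := Finite.exists_le_maximal (p := Ok g D) hT
  refine ⟨T', hle, hmax.prop, fun k => ⟨?_, hmax.prop.acyc k⟩⟩
  have hne : Nonempty V := Fintype.card_pos_iff.mp (by omega)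
  have key : ∀ u, Fintype.card V < 2 * (univ.filter fun x => (T' k).Reachable u x).card := by
    intro u
    by_contra hu
    obtain ⟨a, hua, ha⟩ := leaf (hmax.prop.acyc k) u
    have h1 := hmax.prop.many hR (k := k) (a := a) (by have := hR.D2; omega)
      (univ.filter fun x => ¬ (T' k).Reachable u x)
      (fun b hb hab => (mem_filter.mp hb).2 (hua.trans hab))
    have h2 := card_filter_add_card_filter_not (s := univ) fun x => (T' k).Reachable u x
    rw [card_univ] at h2
    obtain ⟨b, hb⟩ := card_pos.mp (show 0 < ((univ.filter fun x => ¬ (T' k).Reachable u x).filter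
      fun b => Ok g D (Grow.add T' k a b)).card by omega)
    obtain ⟨hb1, hb2⟩ := mem_filter.mp hb
    have hb3 := (mem_filter.mp hb1).2
    have hab : a ≠ b := fun e => hb3 (e ▸ hua)
    exact hb3 (hua.trans (hmax.le_of_ge hb2 (le_add T' k a b) k (add_adj T' k hab)).reachable)
  refine ⟨fun u v => ?_⟩
  by_contra huv
  have h1 : Disjoint (univ.filter fun x => (T' k).Reachable u x)
      (univ.filter fun x => (T' k).Reachable v x) := by
    rw [Finset.disjoint_left]
    intro x hx hy
    exact huv ((mem_filter.mp hx).2.trans (mem_filter.mp hy).2.symm)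
  have h2 := card_union_of_disjoint h1
  have h3 := card_le_univ ((univ.filter fun x => (T' k).Reachable u x) ∪
    univ.filter fun x => (T' k).Reachable v x)
  have h4 := key u
  have h5 := key v
  omega

end Pool.Agent.MP_2117ab_co.Grow
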