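import Pool.Agent.MP_2117ab_co.Grow
import Mathlib.Data.Real.Basic
import Mathlib.Algebra.BigOperators.Group.Finset.Basic

/-!
Every colouring of a forest is realised; small vertex sets of a graph with no short cycle span
forests.
-/

set_option autoImplicit false

open SimpleGraph Finset

namespace Pool.Agent.MP_2117ab_co.Grow

variable {V : Type}

/-- A function which jumps by one on the edges of `H` and is constant on the other edges. -/
theorem exists_jump [Finite V] {F : SimpleGraph V} (hF : F.IsAcyclic) (H : SimpleGraph V) :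
    ∃ f : V → ℝ, ∀ u v, F.Adj u v →
      (H.Adj u v → |f u - f v| = 1) ∧ (¬ H.Adj u v → |f u - f v| = 0) := by
  classical
  have := Fintype.ofFinite V
  let s : Sym2 V → V → ℝ := fun e v => if (F.deleteEdges {e}).Reachable e.out.1 v then 1 else 0
  have h1 : ∀ e u v, F.Adj u v → e ≠ s(u, v) → s e u = s e v := by
    intro e u v huv he
    have h2 : (F.deleteEdges {e}).Adj u v := by
      rw [deleteEdges_adj]
      exact ⟨huv, fun h => he (Set.mem_singleton_iff.mp h).symm⟩
    have h3 : (F.deleteEdges {e}).Reachable e.out.1 u ↔ (F.deleteEdges {e}).Reachable e.out.1 v :=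
      ⟨fun h => h.trans h2.reachable, fun h => h.trans h2.symm.reachable⟩
    simp only [s, h3]
  have h2 : ∀ u v, F.Adj u v → |s s(u, v) u - s s(u, v) v| = 1 := by
    intro u v huv
    have h3 : ¬ (F.deleteEdges {s(u, v)}).Reachable u v :=
      isBridge_iff.mp (isAcyclic_iff_forall_adj_isBridge.mp hF huv)
    have h4 : (s(u, v) : Sym2 V).out.1 = u ∨ (s(u, v) : Sym2 V).out.1 = v :=
      Sym2.mem_iff.mp (Sym2.out_fst_mem _)
    rcases h4 with h4 | h4
    · simp only [s, h4, if_pos (Reachable.refl u), if_neg h3]
      simp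
    · simp only [s, h4, if_pos (Reachable.refl v), if_neg fun h => h3 (Reachable.symm h)]
      simp
  refine ⟨fun v => ∑ e ∈ H.edgeFinset, s e v, fun u v huv => ⟨fun h => ?_, fun h => ?_⟩⟩
  · rw [← sum_sub_distrib, sum_eq_single s(u, v)]
    · exact h2 u v huv
    · intro e _ he
      rw [h1 e u v huv he, sub_self]
    · intro he
      exact absurd (mem_edgeFinset.mpr h) he
  · rw [← sum_sub_distrib, sum_eq_zero, abs_zero]
    intro e he
    rw [h1 e u v huv, sub_self]
    rintro rfl
    exact h (mem_edgeFinset.mp he)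

/-- The edges of `G` with both ends in `S`. -/
def inside (G : SimpleGraph V) (S : Finset V) : SimpleGraph V where
  Adj u v := G.Adj u v ∧ u ∈ S ∧ v ∈ S
  symm := ⟨fun _ _ h => ⟨h.1.symm, h.2.2, h.2.1⟩⟩
  loopless := ⟨fun _ h => h.1.ne rfl⟩

theorem tail_subset {G : SimpleGraph V} {S : Finset V} {a b : V} (w : (inside G S).Walk a b) :
    ∀ x ∈ w.support.tail, x ∈ S := by
  induction w with
  | nil => simp
  | cons h w ih =>
    intro x hx
    rw [Walk.support_cons, List.tail_cons, ← Walk.cons_tail_support, List.mem_cons] at hx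
    rcases hx with rfl | hx
    · exact h.2.2
    · exact ih x hx

theorem Big.inside {G : SimpleGraph V} {g : ℕ} (hG : Big G g) {S : Finset V} (hS : S.card ≤ g) :
    (inside G S).IsAcyclic := by
  classical
  intro a w hw
  have hle : Grow.inside G S ≤ G := fun _ _ h => h.1
  have h1 := hG a (w.mapLe hle) (hw.mapLe hle)
  rw [Walk.length_mapLe] at h1
  have h2 : w.support.tail.toFinset ⊆ S := fun x hx => tail_subset w x (List.mem_toFinset.mp hx)
  have h3 := card_le_card h2
  rw [List.toFinset_card_of_nodup hw.support_nodup, List.length_tail, Walk.length_support] at h3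
  omega

end Pool.Agent.MP_2117ab_co.Grow
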